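import Pool.Agent.H20.RT.Stmts

/-! Project RT, row TGT. -/

set_option autoImplicit false

namespace Pool.RT

theorem TGT_thm (h1 : FAMStmt) : TGTStmt := by
  intro t ht r M0 hr hM0 hMr
  obtain ⟨j, hj⟩ : ∃ j : ℕ, j = Nat.log 64 r := ⟨_, rfl⟩
  have hj1 : 64 ^ j ≤ r := by rw [hj]; exact Nat.pow_log_le_self 64 (by omega)
  have hj2 : r < 64 ^ (j + 1) := by rw [hj]; exact Nat.lt_pow_succ_log_self (by norm_num) r
  have hj0 : 1 ≤ j := by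
    rcases Nat.eq_zero_or_pos j with h | h
    · rw [h] at hj2
      norm_num at hj2
      omega
    · exact h
  have hj3 : 64 ≤ 64 ^ j := by
    calc 64 = 64 ^ 1 := by norm_num
      _ ≤ 64 ^ j := Nat.pow_le_pow_right (by norm_num) hj0
  obtain ⟨a0, b0, k, ha0, hb0, hk⟩ := h1 t ht j
  rw [pow_succ] at hj2
  generalize 64 ^ j = Q at *
  obtain ⟨L, hL⟩ : ∃ L : ℕ, L = 32 * Q := ⟨_, rfl⟩
  rw [← hL] at ha0 hk
  obtain ⟨p, hp⟩ : ∃ p : ℕ, p = b0 % 2 := ⟨_, rfl⟩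
  obtain ⟨b2, hb2⟩ : ∃ b2 : ℕ, 2 * b2 = 31 * p + b0 := ⟨(31 * p + b0) / 2, by omega⟩
  obtain ⟨q, hq⟩ : ∃ q : ℕ, q = 2 * L - 31 := ⟨_, rfl⟩
  have hq1 : r ≤ 2 * q := by omega
  have hq0 : 4065 ≤ q := by omega
  obtain ⟨γ, hγ⟩ : ∃ γ : ℕ, γ = (9 * M0 + (q - 1)) / q := ⟨_, rfl⟩
  have g1 : q * γ ≤ 9 * M0 + (q - 1) := by rw [hγ]; exact Nat.mul_div_le _ _
  have g2 : 9 * M0 ≤ q * γ := by
    have h2 := Nat.div_add_mod (9 * M0 + (q - 1)) q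
    have h3 := Nat.mod_lt (9 * M0 + (q - 1)) (show 0 < q by omega)
    rw [← hγ] at h2
    omega
  have g3 : 1 ≤ γ := by
    rcases Nat.eq_zero_or_pos γ with h | h
    · rw [h] at g2
      omega
    · exact h
  have g4 : γ ≤ 18 * r + 1 := by
    by_contra hcon
    push Not at hcon
    have h2 : q * (18 * r + 2) ≤ q * γ := Nat.mul_le_mul_left q (by omega)
    have h3 : q * (18 * r + 2) = 9 * (r * (2 * q)) + 2 * q := by ring
    have h4 : r * r ≤ r * (2 * q) := Nat.mul_le_mul_left r hq1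
    omega
  have hp1 : p ≤ 1 := by omega
  obtain ⟨pL, hpL⟩ : ∃ pL : ℕ, pL = (L - 31) * p := ⟨_, rfl⟩
  have hpL1 : pL ≤ L := by
    rw [hpL]
    calc (L - 31) * p ≤ (L - 31) * 1 := Nat.mul_le_mul_left _ hp1
      _ ≤ L := by omega
  obtain ⟨A, hA⟩ : ∃ A : ℕ, A = (L - 31) * (2 * γ + p) + a0 := ⟨_, rfl⟩
  obtain ⟨b, hb⟩ : ∃ b : ℕ, b = 31 * γ + b2 := ⟨_, rfl⟩
  have e1 : A + 31 * γ = q * γ + pL + a0 := by
    have h2 : 2 * (L - 31) + 31 = q := by omega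
    rw [hA, hpL, ← h2]
    ring
  have e2 : 4034 * γ ≤ q * γ - 31 * γ := by
    have h2 : 4065 * γ ≤ q * γ := Nat.mul_le_mul_right γ hq0
    omega
  have hAb : 31 * (2 * γ + p) + b0 = 2 * b := by rw [hb]; omega
  have hkA := hk (2 * γ + p)
  rw [hAb, ← hA] at hkA
  obtain ⟨M, hM⟩ : ∃ M : ℕ, M = (A + b) / 9 := ⟨_, rfl⟩
  have hM9 : 9 * M ≤ A + b := by omega
  have hM1 : M0 ≤ M := by omega
  have h8 : 8 * M ≤ A := by omega
  refine ⟨M, b, A - 8 * M, k, hM1, by omega, by omega, ?_⟩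
  have e3 : 8 * M + (A - 8 * M) = A := by omega
  rw [e3]
  exact hkA

end Pool.RT
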